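import Pool.Agent.H8.AV3.Stmts7

/-!
# FN3: the final statement of stage 3
-/

set_option autoImplicit false

namespace Pool.Agent.H12.AV3C

open Polynomial Matrix Pool.AVR Pool.AV3

/-- FN3: the final statement. -/
theorem fn3_of (hL : Pool.AV3.LML3Stmt) (h2 : Pool.AV3.FN2Stmt) :
    Pool.AV3.FN3Stmt := by
  intro F _ _ hF
  obtain ⟨hA, hB, hC, hD⟩ := h2 F hF
  refine ⟨hA, hB, hC, ?_, ?_⟩
  · -- positivity of the number of curves
    have hq1 : 1 < Nat.card F := Finite.one_lt_card
    have hq : 3 ≤ Nat.card F := by
      rcases Nat.lt_or_ge (Nat.card F) 3 with h | h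
      · exfalso
        have h3 : Nat.card F = 2 := by omega
        apply hF
        have : Fintype F := Fintype.ofFinite F
        have h4 : ((Nat.card F : ℕ) : F) = 0 := by
          rw [Nat.card_eq_fintype_card]
          exact Nat.cast_card_eq_zero F
        rw [h3] at h4
        exact_mod_cast h4
      · exact h
    have hpos : ∀ n : ℕ, 1 ≤ n → 0 < (El F n).ncard := by
      intro n hn
      rcases Nat.eq_zero_or_pos (El F n).ncard with h0 | h0
      · exfalso
        obtain ⟨hc1, hc2⟩ := hC n hn
        have hfam : (Fam F n).Finite := by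
          apply Set.finite_of_ncard_pos
          rw [hc1]
          positivity
        have hsub : El F n ⊆ Fam F n := fun f hf => hf.1.1
        have hemp : El F n = ∅ := by
          rcases (Set.ncard_eq_zero (hfam.subset hsub)).1 h0 with h
          exact h
        have h5 : {f ∈ Fam F n | f ∉ El F n} = Fam F n := by
          ext f
          simp [hemp]
        rw [h5, hc1] at hc2
        have h6 : Nat.card F ^ (12 * n + 3) = Nat.card F ^ (2 * n) * Nat.card F ^ (10 * n + 3) := by
          rw [← pow_add]
          congr 1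
          omega
        rw [h6] at hc2
        have h7 : 3 < Nat.card F ^ (2 * n) := by
          calc 3 < 3 ^ 2 := by norm_num
            _ ≤ Nat.card F ^ 2 := Nat.pow_le_pow_left hq 2
            _ ≤ Nat.card F ^ (2 * n) := Nat.pow_le_pow_right (by omega) (by omega)
        have h8 : 0 < Nat.card F ^ (10 * n + 3) := by positivity
        have h9 := (Nat.mul_lt_mul_right h8).2 h7
        omega
      · exact h0
    rw [Metric.tendsto_atTop]
    intro ε hε
    obtain ⟨N1, hN1⟩ := hL F hF (ε / 2) (by positivity)
    obtain ⟨N2, hN2⟩ := hD (ε / 2) (by positivity)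
    refine ⟨max (max N1 N2) 1, fun n hn => ?_⟩
    have hn1 : N1 ≤ n := le_trans (le_trans (le_max_left _ _) (le_max_left _ _)) hn
    have hn2 : N2 ≤ n := le_trans (le_trans (le_max_right _ _) (le_max_left _ _)) hn
    have hn3 : 1 ≤ n := le_trans (le_max_right _ _) hn
    have hp : (0 : ℝ) < (El F n).ncard := by exact_mod_cast hpos n hn3
    have hl := hN1 n hn1
    have hu := (hN2 n hn2).1
    rw [Real.dist_eq, abs_lt]
    constructor
    · have h1 : 4 - ε / 2 ≤ (∑ᶠ f ∈ El F n, (Nat.card (Sel3 f) : ℝ)) / (El F n).ncard := by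
        rw [le_div_iff₀ hp]
        exact hl
      linarith
    · have h1 : (∑ᶠ f ∈ El F n, (Nat.card (Sel3 f) : ℝ)) / (El F n).ncard ≤ 4 + ε / 2 := by
        rw [div_le_iff₀ hp]
        exact hu
      linarith
  · intro ε hε
    obtain ⟨N, hN⟩ := hD ε hε
    exact ⟨N, fun n hn => (hN n hn).2⟩

end Pool.Agent.H12.AV3C
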