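import Pool.Agent.H8.AV3.Stmts6

/-!
# LSG: good points modulo large primes
-/

set_option autoImplicit false

namespace Pool.Agent.H12.AV3C

open Polynomial Matrix Pool.AVR Pool.AV3

theorem map_dscJc {R S : Type} [CommRing R] [CommRing S] (φ : R →+* S) (τ : R)
    (c : Fin 10 → R) : φ (dsc (Jc τ c)) = dsc (Jc (φ τ) (fun i => φ (c i))) := by
  simp only [dsc, disc, Jc, jb4, jb6, map_add, map_sub, map_mul, map_pow, map_neg, map_ofNat]

/-- LSG: good points modulo large primes. -/
theorem lsg_thm (hLNG : Pool.AV3.LNGStmt) (hNDP : Pool.AV3.NDPStmt) : Pool.AV3.LSGStmt := by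
  intro F _ _ h2 P hPm hPi hcard c hc
  by_cases hd : P ∣ dsc (Jc (hf F) c)
  · exact hNDP F h2 P hPm hPi c hd hc
  · have : Fact (Irreducible P) := ⟨hPi⟩
    have hfin : Module.Finite F (AdjoinRoot P) := (AdjoinRoot.powerBasis' hPm).finite
    have : Finite (AdjoinRoot P) := Module.finite_of_finite F
    have hc1 : Nat.card (AdjoinRoot P) = Nat.card F ^ P.natDegree := by
      rw [Module.natCard_eq_pow_finrank (K := F) (V := AdjoinRoot P),
        (AdjoinRoot.powerBasis' hPm).finrank, AdjoinRoot.powerBasis'_dim]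
    have h2k : (2 : AdjoinRoot P) ≠ 0 := by
      intro h
      apply h2
      apply (AdjoinRoot.of P).injective
      rw [map_ofNat, map_zero]
      exact h
    have hh : AdjoinRoot.mk P (hf F) = (2 : AdjoinRoot P)⁻¹ := by
      rw [hf, AdjoinRoot.mk_C, map_inv₀, map_ofNat]
    have hne : dsc (Jc (2 : AdjoinRoot P)⁻¹ (md P c)) ≠ 0 := by
      rw [← hh]
      have h3 := map_dscJc (AdjoinRoot.mk P) (hf F) c
      intro h4
      apply hd
      rw [← AdjoinRoot.mk_eq_zero, h3]
      exact h4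
    obtain ⟨v, hv⟩ := hLNG (AdjoinRoot P) h2k (by rw [hc1]; exact hcard) (md P c) hne
    exact ⟨v, hv⟩

end Pool.Agent.H12.AV3C
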