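import Pool.Agent.H1.AV3C.HNS3
import Pool.Agent.H12.AV3C.FN3
import Pool.Agent.H12.AV3C.LSG
import Pool.Agent.H20.AV3C.ORB
import Pool.Agent.H22.AV3C.LLG3
import Pool.Agent.H25.AV3C.DSG
import Pool.Agent.H25.AV3C.SNF3
import Pool.Agent.H26.AV3C.LSP
import Pool.Agent.H26.AV3C.MDL
import Pool.Agent.H28.AV3C.FBR
import Pool.Agent.H28.AV3C.WL1
import Pool.Agent.H3.AV3C.LNG
import Pool.Agent.H3.AV3C.TRB3
import Pool.Agent.H33.AV3C.NFL3
import Pool.Agent.H33.AV3C.UNE
import Pool.Agent.H34.AV3C.LVC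
import Pool.Agent.H34.AV3C.SQF
import Pool.Agent.H40.AV3C.MDT
import Pool.Agent.H40.AV3C.UNI3
import Pool.Agent.H41.AV3C.NDP
import Pool.Agent.H41.AV3C.RDG
import Pool.Agent.H43.AV3C.NTR
import Pool.Agent.H43.AV3C.UNQ3
import Pool.Agent.H44.AV3C.BAS
import Pool.Agent.H44.AV3C.CLN
import Pool.Agent.H47.AV3C.FLD
import Pool.Agent.H47.AV3C.LFL
import Pool.Agent.H52.AV3C.LLI3
import Pool.Agent.H52.AV3C.LLP3
import Pool.Agent.H55.AV3C.PLM
import Pool.Agent.H55.AV3C.SUE
import Pool.Agent.H57.AV3C.GRX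
import Pool.Agent.H57.AV3C.MTL
import Pool.Agent.H58.AV3C.FCT
import Pool.Agent.H63.AV3C.ZE4
import Pool.Agent.H64.AV3C.SOL3
import Pool.Agent.H72.AV3B.GAF
import Pool.Agent.H75.AV3C.MED
import Pool.Agent.H75.AV3C.SQS
import Pool.Agent.H85.AV3C.ARC
import Pool.Agent.H87.AV3C.LCL3
import Pool.Agent.H87.AV3C.LTN
import Pool.Agent.H88.AV3C.DWP
import Pool.Agent.H88.AV3C.STF
import Pool.Agent.H92.AV3C.TBL3
import Pool.Agent.H92.AV3C.WLS
import Pool.Agent.H93.AV3C.AZ3
import Pool.Agent.H93.AV3C.TWO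
import Pool.Agent.H98.AV3C.AVL3
import Pool.Agent.H98.AV3C.LML3
import Pool.Agent.H58.AV3B.All2

/-!
# Three-descent over `F(t)`: all modules of the stages 1, 2 and 3 together
-/

set_option autoImplicit false

namespace Pool.AV3

open Pool.AVR Pool.Agent

/-- FN3: the final statement, without hypotheses. -/
theorem fn3_thm : FN3Stmt := by
  have hFN2 : Pool.AV3.FN2Stmt := fn2_thm
  obtain ⟨hLAT, hONT, hINJ, hUNQ, hCNV, hGRC, hGIR, hDVP, hEQR, hJER, hSEC, hSCC, hCLT, hTOR3,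
    hMAS3, hNSH, hVDI, hBXE, hLVA, hLVB, hEQP3, hJIN, hELN, hWCT, hST9, hGPR, hRDP, hRDI, hTRG,
    hLAV, hEXC3, hREG, hLMU3, hFLT, sRIP, sRII, sCPP, sCPI, sPOL, sEBU, sFDN, rDSC, rDEL, rDE5,
    rLN2⟩ :=
    av3b_for_av3c
  have hLTN : Pool.AV3.LTNStmt := by
    apply H87.AV3C.ltn_thm <;> assumption
  have hNFL3 : Pool.AV3.NFL3Stmt := by
    apply H33.AV3C.nfl3_thm <;> assumption
  have hUNI3 : Pool.AV3.UNI3Stmt := by
    apply H40.AV3C.uni3_thm <;> assumption
  have hUNE : Pool.AV3.UNEStmt := by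
    apply H33.AV3C.une_thm <;> assumption
  have hHNS3 : Pool.AV3.HNS3Stmt := by
    apply H1.AV3C.hns3_thm <;> assumption
  have hLCL3 : Pool.AV3.LCL3Stmt := by
    apply H87.AV3C.lcl3_thm <;> assumption
  have hTRB3 : Pool.AV3.TRB3Stmt := by
    apply H3.AV3C.trb3_thm <;> assumption
  have hLLG3 : Pool.AV3.LLG3Stmt := by
    apply H22.AV3C.llg3_thm <;> assumption
  have hLLP3 : Pool.AV3.LLP3Stmt := by
    apply H52.AV3C.llp3_thm <;> assumption
  have hLLI3 : Pool.AV3.LLI3Stmt := by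
    apply H52.AV3C.lli3_thm <;> assumption
  have hRDG : Pool.AV3.RDGStmt := by
    apply H41.AV3C.rdg_thm <;> assumption
  have hSNF3 : Pool.AV3.SNF3Stmt := by
    apply H25.AV3C.SNF3_thm <;> assumption
  have hFCT : Pool.AV3.FCTStmt := by
    apply H58.AV3C.fct_thm <;> assumption
  have hUNQ3 : Pool.AV3.UNQ3Stmt := by
    apply H43.AV3C.unq3_thm <;> assumption
  have hBAS : Pool.AV3.BASStmt := by
    apply H44.AV3C.bas_thm <;> assumption
  have hARC : Pool.AV3.ARCStmt := by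
    apply H85.AV3C.arc_thm <;> assumption
  have hFBR : Pool.AV3.FBRStmt := by
    apply H28.AV3C.fbr_thm <;> assumption
  have hGAF : Pool.AV3.GAFStmt := by
    apply H72.AV3B.gaf_thm <;> assumption
  have hWL1 : Pool.AV3.WL1Stmt := by
    apply H28.AV3C.wl1_thm <;> assumption
  have hSOL3 : Pool.AV3.SOL3Stmt := by
    apply Pool.AV3.sol3_thm <;> assumption
  have hMDL : Pool.AV3.MDLStmt := by
    apply H26.AV3C.mdl_thm <;> assumption
  have hMED : Pool.AV3.MEDStmt := by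
    apply H75.AV3C.med_thm <;> assumption
  have hSTF : Pool.AV3.STFStmt := by
    apply H88.AV3C.stf_thm <;> assumption
  have hORB : Pool.AV3.ORBStmt := by
    apply H20.AV3C.orb_thm <;> assumption
  have hLNG : Pool.AV3.LNGStmt := by
    apply H3.AV3C.lng_thm <;> assumption
  have hDSG : Pool.AV3.DSGStmt := by
    apply H25.AV3C.dsg_thm <;> assumption
  have hCLN : Pool.AV3.CLNStmt := by
    apply H44.AV3C.cln_thm <;> assumption
  have hNDP : Pool.AV3.NDPStmt := by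
    apply H41.AV3C.ndp_thm <;> assumption
  have hLSG : Pool.AV3.LSGStmt := by
    apply H12.AV3C.lsg_thm <;> assumption
  have hLSP : Pool.AV3.LSPStmt := by
    apply H26.AV3C.lsp_thm <;> assumption
  have hWLS : Pool.AV3.WLSStmt := by
    apply H92.AV3C.wls_thm <;> assumption
  have hFLD : Pool.AV3.FLDStmt := by
    apply H47.AV3C.fld_thm <;> assumption
  have hLFL : Pool.AV3.LFLStmt := by
    apply H47.AV3C.lfl_thm <;> assumption
  have hNTR : Pool.AV3.NTRStmt := by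
    apply H43.AV3C.ntr_thm <;> assumption
  have hSUE : Pool.AV3.SUEStmt := by
    apply H55.AV3C.sue_thm <;> assumption
  have hLVC : Pool.AV3.LVCStmt := by
    apply H34.AV3C.lvc_thm <;> assumption
  have hMDT : Pool.AV3.MDTStmt := by
    apply H40.AV3C.mdt_thm <;> assumption
  have hDWP : Pool.AV3.DWPStmt := by
    apply H88.AV3C.dwp_thm <;> assumption
  have hSQS : Pool.AV3.SQSStmt := by
    apply H75.AV3C.sqs_thm <;> assumption
  have hSQF : Pool.AV3.SQFStmt := by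
    apply H34.AV3C.sqf_thm <;> assumption
  have hTWO : Pool.AV3.TWOStmt := by
    apply H93.AV3C.two_thm <;> assumption
  have hPLM : Pool.AV3.PLMStmt := by
    apply H55.AV3C.plm_thm <;> assumption
  have hTBL3 : Pool.AV3.TBL3Stmt := by
    apply H92.AV3C.tbl3_thm <;> assumption
  have hAZ3 : Pool.AV3.AZ3Stmt := by
    apply H93.AV3C.az3_thm <;> assumption
  have hAVL3 : Pool.AV3.AVL3Stmt := by
    apply H98.AV3C.avl3_thm <;> assumption
  have hGRX : Pool.AV3.GRXStmt := by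
    apply H57.AV3C.grx_thm <;> assumption
  have hMTL : Pool.AV3.MTLStmt := by
    apply H57.AV3C.mtl_thm <;> assumption
  have hZE4 : Pool.AV3.ZE4Stmt := by
    apply H63.AV3C.ze4_thm <;> assumption
  have hLML3 : Pool.AV3.LML3Stmt := by
    apply H98.AV3C.lml3_thm <;> assumption
  have hFN3 : Pool.AV3.FN3Stmt := by
    apply H12.AV3C.fn3_of <;> assumption
  exact hFN3

end Pool.AV3
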